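import Pool.Agent.Helper74.CO.Goals

/-!
# Project CO, packet GE
-/

set_option autoImplicit false

namespace Pool.Agent.Helper65.CO

open Finset Pool.Agent.Helper74.CO

lemma sum_close {F : Type} [Fintype F] [DecidableEq F] (X : Finset F) (g : F → ℂ) (hX : #Xᶜ ≤ 5)
    (hg : ∀ x, ‖g x‖ ≤ 1) : ‖∑ x ∈ X, g x‖ ≤ ‖∑ x, g x‖ + 5 := by
  have h1 : ∑ x, g x = ∑ x ∈ X, g x + ∑ x ∈ Xᶜ, g x := (Finset.sum_add_sum_compl X g).symm
  have h2 : ‖∑ x ∈ Xᶜ, g x‖ ≤ 5 := by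
    calc ‖∑ x ∈ Xᶜ, g x‖ ≤ ∑ x ∈ Xᶜ, ‖g x‖ := norm_sum_le _ _
      _ ≤ ∑ x ∈ Xᶜ, (1:ℝ) := Finset.sum_le_sum fun x _ => hg x
      _ = (#Xᶜ : ℝ) := by simp
      _ ≤ 5 := by exact_mod_cast hX
  have h3 : ∑ x ∈ X, g x = ∑ x, g x - ∑ x ∈ Xᶜ, g x := by rw [h1]; ring
  rw [h3]
  exact (norm_sub_le _ _).trans (by linarith)

lemma close2 {F : Type} [Fintype F] [DecidableEq F] (X : Finset F) (T g : F → ℂ) (c : ℂ)
    (hX : #Xᶜ ≤ 5) (hg : ∀ x, ‖g x‖ ≤ 1) (hc : ‖c‖ ≤ 1) (h : ∀ x ∈ X, T x = c * g x) :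
    ‖∑ x ∈ X, T x‖ ≤ ‖∑ x, g x‖ + 5 := by
  have h1 : ∑ x ∈ X, T x = c * ∑ x ∈ X, g x := by
    rw [Finset.mul_sum]; exact Finset.sum_congr rfl h
  rw [h1, norm_mul]
  calc ‖c‖ * ‖∑ x ∈ X, g x‖ ≤ 1 * ‖∑ x ∈ X, g x‖ :=
        mul_le_mul_of_nonneg_right hc (norm_nonneg _)
    _ = ‖∑ x ∈ X, g x‖ := one_mul _
    _ ≤ _ := sum_close X g hX hg

lemma norm_char_le {F : Type} [Field F] [Fintype F] (χ : MulChar F ℂ) (x : F) : ‖χ x‖ ≤ 1 := by
  classical
  by_cases hx : x = 0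
  · subst hx
    have : χ 0 = 0 := MulChar.map_zero χ
    rw [this]; simp
  · have h1 : (χ x) ^ (Fintype.card F - 1) = 1 := by
      rw [← map_pow, FiniteField.pow_card_sub_one_eq_one x hx, map_one]
    have h2 : Fintype.card F - 1 ≠ 0 := by
      have := Fintype.one_lt_card (α := F)
      omega
    exact (Complex.norm_eq_one_of_pow_eq_one h1 h2).le

lemma ex_add (a b : ℝ) : ex (a + b) = ex a * ex b := by
  unfold ex
  rw [← Complex.exp_add]
  congr 1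
  push_cast
  ring

lemma card_compl {F : Type} [Field F] [Fintype F] [DecidableEq F] (e f : F) (he : e ≠ 0) :
    #(Xg e f)ᶜ ≤ 5 := by
  have h : (Xg e f)ᶜ ⊆ ({0, 1, 1 - f, e, e / (e + f)} : Finset F) := by
    intro x hx
    simp only [Xg, mem_compl, mem_filter, mem_univ, true_and, not_and_or, not_not] at hx
    simp only [mem_insert, mem_singleton]
    rcases hx with h | h | h | h | h
    · exact Or.inl h
    · exact Or.inr (Or.inl h)
    · exact Or.inr (Or.inr (Or.inl h))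
    · exact Or.inr (Or.inr (Or.inr (Or.inl h)))
    · refine Or.inr (Or.inr (Or.inr (Or.inr ?_)))
      have h0 : e + f ≠ 0 := by
        intro h0; rw [h0, zero_mul] at h; exact he h.symm
      rw [eq_div_iff h0, mul_comm]; exact h
  refine (card_le_card h).trans ?_
  exact card_le_five

lemma norm_prod_le {F : Type} [Field F] [Fintype F] (χ₁ χ₂ χ₃ : MulChar F ℂ) (x y z : F) :
    ‖χ₁ x * (χ₂ y * χ₃ z)‖ ≤ 1 := by
  rw [norm_mul, norm_mul]
  exact mul_le_one₀ (norm_char_le _ _) (by positivity)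
    (mul_le_one₀ (norm_char_le _ _) (by positivity) (norm_char_le _ _))

/-- the sum of three characters -/
lemma key {F : Type} [Field F] [Fintype F] [DecidableEq F] (hTRI2 : TRI2 F)
    (hJAC : JAC F) (α β : F) (χ ω : MulChar F ℂ)
    (hχ : ∀ x : F, x ≠ 0 → ∀ j : ℤ,
      (χ ^ j) x = ex (j * ((ind α x : ℝ) / ((Fintype.card F : ℝ) - 1))))
    (hχ1 : ∀ j : ℤ, j ≠ 0 → |j| < (Fintype.card F : ℤ) - 1 → χ ^ j ≠ 1)
    (hω : ∀ x : F, x ≠ 0 → ∀ j : ℤ,
      (ω ^ j) x = ex (j * ((ind β x : ℝ) / ((Fintype.card F : ℝ) - 1))))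
    (hω1 : ∀ j : ℤ, j ≠ 0 → |j| < (Fintype.card F : ℤ) - 1 → ω ^ j ≠ 1)
    (K : ℕ) (κ : ℝ) (hκ : 0 < κ) (hK : (K : ℤ) ≤ (Fintype.card F : ℤ) - 1)
    (hl : ∀ x : ℝ, 0 ≤ x → x ^ 2 ≤ 16 * (Fintype.card F : ℝ) * √(Fintype.card F) →
      x + 5 ≤ κ * ((Fintype.card F : ℝ) - 5))
    (hq : κ / 2 * (Fintype.card F : ℝ) ≤ κ * ((Fintype.card F : ℝ) - 5) - 5)
    (e f : F) (he : e ≠ 0) (hf : f ≠ 0) (hef : e + f ≠ 1) (hne : ¬ (e = -1 ∧ f = 1))
    (hE : ¬ Eq3 (Xg e f) (ag α) (fun x => ag α (Mg e f x)) (cg β) K κ) :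
    e + f ≠ 0 ∧ ∃ j k l : ℤ, |j| < K ∧ |k| < K ∧ |l| < K ∧ k ≠ 0 ∧
      κ / 2 * (Fintype.card F : ℝ) ≤ ‖∑ x, ((χ ^ j) x * (ω ^ l) (1 - x)) *
        ((χ ^ k) (x - (1 - f)) * (χ ^ k)⁻¹ (x - e / (e + f)))‖ := by
  have hq1 : (1 : ℝ) ≤ √(Fintype.card F) := by
    rw [Real.one_le_sqrt]
    exact_mod_cast Fintype.card_pos
  have hq0 : (0 : ℝ) ≤ Fintype.card F := by positivity
  have hcX : #(Xg e f)ᶜ ≤ 5 := card_compl e f he
  have hcX' : (Fintype.card F : ℝ) - 5 ≤ #(Xg e f) := by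
    have h1 : #(Xg e f) + #(Xg e f)ᶜ = Fintype.card F := Finset.card_add_card_compl _
    have h2 : (#(Xg e f) : ℝ) + #(Xg e f)ᶜ = Fintype.card F := by exact_mod_cast h1
    have h3 : (#(Xg e f)ᶜ : ℝ) ≤ 5 := by exact_mod_cast hcX
    linarith
  -- bounds for the complete sums
  have b4 : ∀ y : ℝ, 0 ≤ y → y ^ 2 ≤ 4 * Fintype.card F → y + 5 ≤ κ * ((Fintype.card F : ℝ) - 5) := by
    intro y hy h
    refine hl y hy (h.trans ?_)
    nlinarith [mul_nonneg hq0 (sub_nonneg.2 hq1)]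
  have b7 : ∀ y : ℝ, 0 ≤ y → y ^ 2 ≤ 7 * Fintype.card F * √(Fintype.card F) →
      y + 5 ≤ κ * ((Fintype.card F : ℝ) - 5) := by
    intro y hy h
    refine hl y hy (h.trans ?_)
    have : 0 ≤ (Fintype.card F : ℝ) * √(Fintype.card F) := by positivity
    nlinarith
  have hE' : ∃ j k l : ℤ, |j| < K ∧ |k| < K ∧ |l| < K ∧ ¬ (j = 0 ∧ k = 0 ∧ l = 0) ∧
      κ * #(Xg e f) < ‖∑ x ∈ Xg e f, ex (j * ag α x + k * ag α (Mg e f x) + l * cg β x)‖ := by
    unfold Eq3 at hE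
    push Not at hE
    obtain ⟨j, k, l, h1, h2, h3, h4, h5⟩ := hE
    exact ⟨j, k, l, h1, h2, h3, fun h => h4 h.1 h.2.1 h.2.2, h5⟩
  obtain ⟨j, k, l, hj, hk, hl', hjkl, hsum⟩ := hE'
  -- facts about the elements of X
  have hX : ∀ x ∈ Xg e f, x ≠ 0 ∧ 1 - x ≠ 0 ∧ x - (1 - f) ≠ 0 ∧ (e + f) * x - e ≠ 0 ∧
      Mg e f x ≠ 0 := by
    intro x hx
    simp only [Xg, mem_filter, mem_univ, true_and] at hx
    obtain ⟨h1, h2, h3, h4, h5⟩ := hx
    have h6 : (e + f) * x - e ≠ 0 := sub_ne_zero.2 h5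
    have h7 : x - (1 - f) ≠ 0 := sub_ne_zero.2 h3
    refine ⟨h1, sub_ne_zero.2 (Ne.symm h2), h7, h6, ?_⟩
    unfold Mg
    exact div_ne_zero (mul_ne_zero he h7) h6
  have hterm : ∀ x ∈ Xg e f, ex (j * ag α x + k * ag α (Mg e f x) + l * cg β x) =
      (χ ^ j) x * (χ ^ k) (Mg e f x) * (ω ^ l) (1 - x) := by
    intro x hx
    obtain ⟨h1, h2, _, _, h5⟩ := hX x hx
    rw [ex_add, ex_add, hχ x h1 j, hχ _ h5 k, hω _ h2 l]
    rfl
  rw [Finset.sum_congr rfl hterm] at hsum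
  have hlow : κ * ((Fintype.card F : ℝ) - 5) <
      ‖∑ x ∈ Xg e f, (χ ^ j) x * (χ ^ k) (Mg e f x) * (ω ^ l) (1 - x)‖ :=
    lt_of_le_of_lt (mul_le_mul_of_nonneg_left hcX' hκ.le) hsum
  have hω1' : ∀ x : F, (ω ^ l) (1 - x) = (ω ^ l) (-1) * (ω ^ l) (x - 1) := by
    intro x
    rw [← map_mul]; congr 1; ring
  have hlne : l ≠ 0 → ω ^ l ≠ 1 := fun h => hω1 l h (lt_of_lt_of_le hl' hK)
  have hkne : k ≠ 0 → χ ^ k ≠ 1 := fun h => hχ1 k h (lt_of_lt_of_le hk hK)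
  have hjne : j ≠ 0 → χ ^ j ≠ 1 := fun h => hχ1 j h (lt_of_lt_of_le hj hK)
  -- the case k = 0
  have hk0 : k ≠ 0 := by
    intro hk0
    subst hk0
    by_cases hl0 : l = 0
    · subst hl0
      have hj0 : j ≠ 0 := fun h => hjkl ⟨h, rfl, rfl⟩
      have h1 := close2 (Xg e f) (fun x => (χ ^ j) x * (χ ^ (0 : ℤ)) (Mg e f x) *
        (ω ^ (0 : ℤ)) (1 - x)) (fun x => (χ ^ j) x) 1 hcX (fun x => norm_char_le _ _)
        (by simp) (by
          intro x hx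
          obtain ⟨_, h2, _, _, h5⟩ := hX x hx
          simp only [zpow_zero]
          rw [MulChar.one_apply h5.isUnit, MulChar.one_apply h2.isUnit]
          ring)
      have h2 : ∑ x, (χ ^ j) x = 0 := MulChar.sum_eq_zero_of_ne_one (hjne hj0)
      rw [h2, norm_zero] at h1
      have h3 := b4 0 le_rfl (by rw [zero_pow two_ne_zero]; positivity)
      linarith
    · have h1 := close2 (Xg e f) (fun x => (χ ^ j) x * (χ ^ (0 : ℤ)) (Mg e f x) *
        (ω ^ l) (1 - x)) (fun x => (χ ^ j) x * (ω ^ l) (x - 1)) ((ω ^ l) (-1)) hcX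
        (fun x => by
          rw [norm_mul]
          exact mul_le_one₀ (norm_char_le _ _) (by positivity) (norm_char_le _ _))
        (norm_char_le _ _) (by
          intro x hx
          obtain ⟨_, h2, _, _, h5⟩ := hX x hx
          simp only [zpow_zero]
          rw [MulChar.one_apply h5.isUnit, hω1' x]
          ring)
      have h2 := hJAC (χ ^ j) (ω ^ l) 1 (hlne hl0) one_ne_zero
      have h3 := b4 _ (norm_nonneg _) h2
      linarith
  by_cases hs : e + f = 0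
  · -- e + f = 0
    exfalso
    have hM : ∀ x, Mg e f x = -(x - (1 - f)) := by
      intro x
      unfold Mg
      rw [hs, zero_mul, zero_sub]
      field_simp
    have hs0 : 1 - f ≠ 0 := by
      intro h
      have hf1 : f = 1 := (sub_eq_zero.1 h).symm
      exact hne ⟨by rw [hf1] at hs; exact eq_neg_of_add_eq_zero_left hs, hf1⟩
    by_cases hl0 : l = 0
    · subst hl0
      have h1 := close2 (Xg e f) (fun x => (χ ^ j) x * (χ ^ k) (Mg e f x) *
        (ω ^ (0 : ℤ)) (1 - x)) (fun x => (χ ^ j) x * (χ ^ k) (x - (1 - f))) ((χ ^ k) (-1)) hcX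
        (fun x => by
          rw [norm_mul]
          exact mul_le_one₀ (norm_char_le _ _) (by positivity) (norm_char_le _ _))
        (norm_char_le _ _) (by
          intro x hx
          obtain ⟨_, h2, _, _, h5⟩ := hX x hx
          simp only [zpow_zero]
          rw [MulChar.one_apply h2.isUnit, hM x, ← neg_one_mul, map_mul]
          ring)
      have h2 := hJAC (χ ^ j) (χ ^ k) (1 - f) (hkne hk0) hs0
      have h3 := b4 _ (norm_nonneg _) h2
      linarith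
    · have h1 := close2 (Xg e f) (fun x => (χ ^ j) x * (χ ^ k) (Mg e f x) *
        (ω ^ l) (1 - x)) (fun x => (χ ^ j) x * ((χ ^ k) (x - (1 - f)) * (ω ^ l) (x - 1)))
        ((χ ^ k) (-1) * (ω ^ l) (-1)) hcX (fun x => norm_prod_le _ _ _ _ _ _)
        (by
          rw [norm_mul]
          exact mul_le_one₀ (norm_char_le _ _) (by positivity) (norm_char_le _ _)) (by
          intro x hx
          rw [hM x, ← neg_one_mul (x - (1 - f)), map_mul, hω1' x]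
          ring)
      have h2 := hTRI2 (χ ^ j) (χ ^ k) (ω ^ l) (1 - f) 1 (hkne hk0) (hlne hl0) hs0 one_ne_zero
        (by
          intro h
          exact hf (by linear_combination -h))
      have h3 := b7 _ (norm_nonneg _) h2
      linarith
  · refine ⟨hs, ?_⟩
    obtain ⟨t, ht⟩ : ∃ t : F, t = e / (e + f) := ⟨_, rfl⟩
    have hte : (e + f) * t = e := by rw [ht]; field_simp
    have hMx : ∀ x ∈ Xg e f, (χ ^ k) (Mg e f x) =
        (χ ^ k) t * ((χ ^ k) (x - (1 - f)) * (χ ^ k)⁻¹ (x - t)) := by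
      intro x hx
      obtain ⟨_, _, _, h4, _⟩ := hX x hx
      have h6 : x - t ≠ 0 := by
        intro h
        apply h4
        rw [sub_eq_zero.1 h, hte, sub_self]
      rw [MulChar.inv_apply', ← map_mul, ← map_mul]
      congr 1
      unfold Mg
      have h7 : (e + f) * x - e = (e + f) * (x - t) := by rw [mul_sub, hte]
      rw [h7]
      have h8 : t = e / (e + f) := ht
      field_simp
      rw [hte]
    have hst : 1 - f ≠ t := by
      intro h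
      have h1 : (e + f) * (1 - f) = e := by rw [h, hte]
      have h2 : f * (1 - (e + f)) = 0 := by linear_combination h1
      rcases mul_eq_zero.1 h2 with h3 | h3
      · exact hf h3
      · exact hef (sub_eq_zero.1 h3).symm
    have h1 := close2 (Xg e f) (fun x => (χ ^ j) x * (χ ^ k) (Mg e f x) *
        (ω ^ l) (1 - x)) (fun x => ((χ ^ j) x * (ω ^ l) (1 - x)) *
        ((χ ^ k) (x - (1 - f)) * (χ ^ k)⁻¹ (x - t))) ((χ ^ k) t) hcX
        (fun x => by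
          rw [norm_mul, norm_mul, norm_mul]
          exact mul_le_one₀ (mul_le_one₀ (norm_char_le _ _) (by positivity) (norm_char_le _ _))
            (by positivity)
            (mul_le_one₀ (norm_char_le _ _) (by positivity) (norm_char_le _ _)))
        (norm_char_le _ _) (by
          intro x hx
          rw [hMx x hx]
          ring)
    rw [← ht]
    refine ⟨j, k, l, hj, hk, hl', hk0, ?_⟩
    linarith

/-- the injective parametrisation -/
lemma inj_aux {F : Type} [Field F] (P Q : F × F) (hP2 : P.2 ≠ 0)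
    (hP : P.1 + P.2 ≠ 0) (hQ : Q.1 + Q.2 ≠ 0)
    (h : ((1 - P.2, P.1 / (P.1 + P.2)) : F × F) = (1 - Q.2, Q.1 / (Q.1 + Q.2))) : P = Q := by
  have h1 : 1 - P.2 = 1 - Q.2 := congrArg Prod.fst h
  have h2 : P.1 / (P.1 + P.2) = Q.1 / (Q.1 + Q.2) := congrArg Prod.snd h
  have h3 : P.2 = Q.2 := by linear_combination -h1
  rw [div_eq_div_iff hP hQ, ← h3] at h2
  have h4 : P.2 * (P.1 - Q.1) = 0 := by linear_combination h2
  rcases mul_eq_zero.1 h4 with h5 | h5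
  · exact absurd h5 hP2
  · exact Prod.ext (sub_eq_zero.1 h5) h3

open Classical in
/-- **GE** -/
theorem t_GE (hLIM : LIM)
    (hTRI2 : ∀ (F : Type) [Field F] [Fintype F] [DecidableEq F], TRI2 F)
    (hJAC : ∀ (F : Type) [Field F] [Fintype F] [DecidableEq F], JAC F)
    (hHMC : HMC) (hCHM : CHM) : GE := by
  intro K κ hκ
  obtain ⟨q₁, hq₁⟩ := hLIM κ hκ
  obtain ⟨q₂, hq₂⟩ := hHMC (κ / 2) (by positivity)
  obtain ⟨q₃, hq₃⟩ := exists_nat_ge (10 + 10 / κ)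
  obtain ⟨C₀, hC₀⟩ := exists_nat_ge (16 / κ ^ 2)
  refine ⟨q₁ + q₂ + q₃ + K + 3, #((Ioo (-(K : ℤ)) K) ×ˢ ((Ioo (-(K : ℤ)) K) ×ˢ
    (Ioo (-(K : ℤ)) K))) * C₀, ?_⟩
  intro F _ _ dF α β S hF hα hβ hS
  have hF3 : 3 ≤ Fintype.card F := by omega
  obtain ⟨χ, hχ, hχ1⟩ := hCHM F α hα hF3
  obtain ⟨ω, hω, hω1⟩ := hCHM F β hβ hF3
  have hl := hq₁ (Fintype.card F) (by omega)
  have hK : (K : ℤ) ≤ (Fintype.card F : ℤ) - 1 := by
    have : K + 1 ≤ Fintype.card F := by omega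
    have h2 : ((K : ℤ) + 1) ≤ (Fintype.card F : ℤ) := by exact_mod_cast this
    linarith
  have hq : κ / 2 * (Fintype.card F : ℝ) ≤ κ * ((Fintype.card F : ℝ) - 5) - 5 := by
    have h1 : (q₃ : ℝ) ≤ Fintype.card F := by exact_mod_cast (by omega : q₃ ≤ Fintype.card F)
    have h2 : 10 + 10 / κ ≤ (Fintype.card F : ℝ) := hq₃.trans h1
    have h3 : κ * (10 + 10 / κ) ≤ κ * (Fintype.card F : ℝ) := mul_le_mul_of_nonneg_left h2 hκ.le
    have h4 : κ * (10 + 10 / κ) = 10 * κ + 10 := by field_simp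
    linarith
  have hkey : ∀ P ∈ S, P.1 + P.2 ≠ 0 ∧ ∃ j k l : ℤ, |j| < K ∧ |k| < K ∧ |l| < K ∧ k ≠ 0 ∧
      κ / 2 * (Fintype.card F : ℝ) ≤ ‖∑ x, ((χ ^ j) x * (ω ^ l) (1 - x)) *
        ((χ ^ k) (x - (1 - P.2)) * (χ ^ k)⁻¹ (x - P.1 / (P.1 + P.2)))‖ := by
    intro P hP
    obtain ⟨h1, h2, h3, h4, h5⟩ := hS P hP
    exact key (hTRI2 F) (hJAC F) α β χ ω hχ hχ1 hω hω1 K κ hκ hK hl hq P.1 P.2 h1 h2 h3 h4 h5
  -- the parts
  let part : ℤ × (ℤ × ℤ) → Finset (F × F) := fun t => S.filter (fun P => t.2.1 ≠ 0 ∧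
      κ / 2 * (Fintype.card F : ℝ) ≤ ‖∑ x, ((χ ^ t.1) x * (ω ^ t.2.2) (1 - x)) *
        ((χ ^ t.2.1) (x - (1 - P.2)) * (χ ^ t.2.1)⁻¹ (x - P.1 / (P.1 + P.2)))‖)
  have hcov : S ⊆ ((Ioo (-(K : ℤ)) K) ×ˢ ((Ioo (-(K : ℤ)) K) ×ˢ
      (Ioo (-(K : ℤ)) K))).biUnion part := by
    intro P hP
    obtain ⟨_, j, k, l, hj, hk, hl', hk0, hb⟩ := hkey P hP
    rw [mem_biUnion]
    refine ⟨(j, (k, l)), ?_, ?_⟩
    · simp only [mem_product, mem_Ioo]
      exact ⟨abs_lt.1 hj, abs_lt.1 hk, abs_lt.1 hl'⟩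
    · simp only [part, mem_filter]
      exact ⟨hP, hk0, hb⟩
  refine (card_le_card hcov).trans (card_biUnion_le_card_mul _ _ _ ?_)
  rintro ⟨j, k, l⟩ ht
  simp only [mem_product, mem_Ioo] at ht
  obtain ⟨_, hk, _⟩ := ht
  by_cases hk0 : k = 0
  · have : part (j, (k, l)) = ∅ := by
      simp only [part]
      apply filter_eq_empty_iff.2
      intro P _ h
      exact h.1 hk0
    rw [this]; simp
  -- the image
  have hinj : Set.InjOn (fun P : F × F => ((1 - P.2, P.1 / (P.1 + P.2)) : F × F))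
      (part (j, (k, l))) := by
    intro P hP Q hQ h
    have hP' : P ∈ S := (mem_filter.1 (mem_coe.1 hP)).1
    have hQ' : Q ∈ S := (mem_filter.1 (mem_coe.1 hQ)).1
    exact inj_aux P Q (hS P hP').2.1 (hkey P hP').1 (hkey Q hQ').1 h
  have hcard := card_image_of_injOn hinj
  have hk1 : χ ^ k ≠ 1 := hχ1 k hk0 (lt_of_lt_of_le (abs_lt.2 hk) hK)
  have hbound := hq₂ F (χ ^ k) (fun x => (χ ^ j) x * (ω ^ l) (1 - x))
    ((part (j, (k, l))).image (fun P : F × F => ((1 - P.2, P.1 / (P.1 + P.2)) : F × F)))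
    (by omega) hk1 (fun x => by
      rw [norm_mul]
      exact mul_le_one₀ (norm_char_le _ _) (by positivity) (norm_char_le _ _)) (by
      intro Q hQ
      obtain ⟨P, hP, rfl⟩ := mem_image.1 hQ
      obtain ⟨hP', _, hb⟩ := mem_filter.1 hP
      refine ⟨?_, hb⟩
      have h1 := (hkey P hP').1
      obtain ⟨_, h2, h3, _, _⟩ := hS P hP'
      intro h
      have h4 : (1 - P.2) * (P.1 + P.2) = P.1 := (eq_div_iff h1).1 h
      have h5 : P.2 * (1 - (P.1 + P.2)) = 0 := by linear_combination h4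
      rcases mul_eq_zero.1 h5 with h6 | h6
      · exact h2 h6
      · exact h3 (sub_eq_zero.1 h6).symm)
  rw [hcard] at hbound
  have h1 : (#(part (j, (k, l))) : ℝ) ≤ 16 / κ ^ 2 := by
    rw [le_div_iff₀ (by positivity)]
    nlinarith
  exact_mod_cast h1.trans hC₀

end Pool.Agent.Helper65.CO
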